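import Mathlib
import Pool.Agent.Helper76.PWQ.Mzc

/-!
# Powerful numbers: a power saving beyond x^(1/6) is equivalent to a one-sided power saving for the
# mean of the error term, and to an explicit condition on the zeros of zeta near the line Re = 1

`Pool.PWF.E x = Q(x) - A x^(1/2) - B x^(1/3)`, `Q(x)` the number of powerful numbers up to `x`,
`A = zeta(3/2)/zeta(3)`, `B = zeta(2/3)/zeta(2)`. `ZeroCond b`: every complex `rho` with
`b < Re rho < 1` satisfies `m(rho) <= m(rho/2) + m(rho/3)`, `m` the order of vanishing of `zeta`.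
The one-sided bounds `E(x) <= C x^(1/6-delta)` and `E(x) >= -C x^(1/6-delta)` (large `x`) imply the
second and the third statement, so they are equivalent to the others as well.
-/

set_option autoImplicit false

open Filter

namespace Pool.Agent.Results.MP_3c396f_nt.ExactCriterion

open Pool.PWF

theorem result : List.TFAE [
    ∃ δ : ℝ, 0 < δ ∧ E =O[atTop] fun x : ℝ => x ^ (1 / 6 - δ),
    ∃ δ C x0 : ℝ, 0 < δ ∧ ∀ x : ℝ, x0 ≤ x → ∫ t in (1 : ℝ)..x, E t ≤ C * x ^ (7 / 6 - δ),
    ∃ δ C x0 : ℝ, 0 < δ ∧ ∀ x : ℝ, x0 ≤ x → -(C * x ^ (7 / 6 - δ)) ≤ ∫ t in (1 : ℝ)..x, E t,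
    ∃ b : ℝ, b < 1 ∧ ZeroCond b] :=
  Pool.PWQ.main2

end Pool.Agent.Results.MP_3c396f_nt.ExactCriterion
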