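import Mathlib
import Pool.Agent.Helper76.PWF.Unf

/-!
# The error term in the count of powerful numbers in the mean over Gamma windows

`Pool.PWF.E x = Q(x) - A x^(1/2) - B x^(1/3)`, `Q(x)` the number of powerful numbers up to `x`,
`A = zeta(3/2)/zeta(3)`, `B = zeta(2/3)/zeta(2)`. For `k >= 0` and `s > 1/2` the number
`M(k, s) = s^(k+1)/k! * int_1^oo E(x) (log x)^k x^(-s-1) dx` is the mean of `E(x)` if `log x` has the
Gamma distribution with mean `(k+1)/s` and variance `(k+1)/s^2`. Unconditionally there is `C` with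
`|M(k, s)| <= C s^3 X^(1/6 - 3/(10 s))`, `X = e^(k/s)`, for all `k` and all `s >= 2`.
-/

set_option autoImplicit false

namespace Pool.Agent.Results.MP_3c396f_nt.GammaMeans

open Pool.PWF MeasureTheory

theorem result : ∃ C : ℝ, ∀ (k : ℕ) (s : ℝ), 2 ≤ s →
    |s ^ (k + 1) / (k.factorial : ℝ) *
      (∫ x in Set.Ioi (1 : ℝ), E x * Real.log x ^ k * x ^ (-s - 1))| ≤
      C * s ^ 3 * Real.exp ((k : ℝ) / s) ^ (1 / 6 - 3 / (10 * s)) :=
  all_unif

end Pool.Agent.Results.MP_3c396f_nt.GammaMeans
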