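import Mathlib
import Pool.Agent.PWU.Fin

/-!
# Powerful numbers: bounds below x^(1/6) on long intervals at every scale

`Pool.PWE.E x = Q x - A sqrt x - B x^(1/3)` is the error term in the count of the powerful numbers,
`A = zeta(3/2)/zeta(3)`, `B = zeta(2/3)/zeta(2)`. The theorem is unconditional: there are constants
`c, K > 0` such that for all `X >= K` and all `T` with `(log X)^K <= T <= X` there is `y` in
`[X, X T]` with `|E(x)| <= x^(1/6) T^(-c)` for all `x` in `[y, y + y/T]`.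
-/

set_option autoImplicit false

namespace Pool.Agent.Results.MP_3c396f_nt.GoodIntervals

open Pool.PWE

theorem result : ∃ c K : ℝ, 0 < c ∧ 0 < K ∧ ∀ X T : ℝ, K ≤ X → Real.log X ^ K ≤ T → T ≤ X →
    ∃ y : ℝ, X ≤ y ∧ y ≤ X * T ∧ ∀ x : ℝ, y ≤ x → x ≤ y + y / T →
      |E x| ≤ x ^ (1 / 6 : ℝ) * T ^ (-c) :=
  Pool.PWU.main

end Pool.Agent.Results.MP_3c396f_nt.GoodIntervals
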