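import Mathlib
import Pool.Agent.PWV.Near

/-!
# Powerful numbers: points with E(y) in [-1, 0] in every interval [X, X^(1+eps)]

`Pool.PWE.E x = Q x - A sqrt x - B x^(1/3)` is the error term in the count of the powerful numbers,
`A = zeta(3/2)/zeta(3)`, `B = zeta(2/3)/zeta(2)`. The theorem is unconditional: there is a constant `C`
such that for every `eps > 0` and all large `X` there is a real `y` in `[X, X^(1+eps)]` with
`-1 <= E(y) <= 0` and `|E(x)| <= C x^(1/6) T^(-1/240)` for all `1 <= T <= y^(1/6)` and all `x` in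
`[y, y + y/T]`.
-/

set_option autoImplicit false

namespace Pool.Agent.Results.MP_3c396f_nt.ReturnsToZero

open Pool.PWE

theorem result : ∃ C : ℝ, ∀ ε : ℝ, 0 < ε → ∃ X₀ : ℝ, ∀ X : ℝ, X₀ ≤ X →
    ∃ y : ℝ, X ≤ y ∧ y ≤ X ^ (1 + ε) ∧ -1 ≤ E y ∧ E y ≤ 0 ∧
      ∀ T x : ℝ, 1 ≤ T → T ≤ y ^ (1 / 6 : ℝ) → y ≤ x → x ≤ y + y / T →
        |E x| ≤ C * x ^ (1 / 6 : ℝ) * T ^ (-(1 / 240) : ℝ) :=
  Pool.PWV.retNear

end Pool.Agent.Results.MP_3c396f_nt.ReturnsToZero
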